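import Pool.Agent.H423.HT.Tgt

/-!
# Almost all targets, in every family of endomorphisms

Let `F_t`, `t ∈ K^m`, be a polynomial family of endomorphisms of `ℙ^N` of degree `d ≥ 2` over a number
field `K`, with a good generic member (for `m = 0` this is any one endomorphism). Outside a thin set
of pairs `(t, γ)` both questions have a positive answer for `F_t`, the target `γ` and all starting
points at once. In particular this holds for 100% of the integral pairs `(t, γ)`.

Proof. Some monomial `h` of degree `d` is not a polynomial in the values `F_t(x)`. A multiple `c(t) h`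
is integral over the polynomials in `t` and `y = F_t(x)`; let `f(t, y, Y)` be its minimal polynomial,
of degree at least two. If `f(t, γ, Y)` is irreducible over `K`, then some element of the Galois group
fixes none of its roots (Jordan), so it fixes no point of the fibre of `F_t` over `γ`: if it fixed
`[x]` with `F_t(x) = γ`, it would multiply `x` by a root of unity of order dividing `d`, and fix the
root `c(t) h(x)`. By the one-prime criterion this suffices. Hilbert's irreducibility theorem, with
density, does the rest.
-/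

set_option autoImplicit false

namespace Pool.Agent.Results.MP_df4dfc_nt.AlmostAllTargets

open MvPolynomial NumberField IsDedekindDomain Filter Topology Pool.Agent.H423.OA Pool.Agent.H423.HT

/-- The vectors of integers of `K` whose coordinates with respect to the basis `ω` are at most `H`
in absolute value. -/
def box {K : Type} [Field K] {J : Type} (ω : Module.Basis J ℤ (𝓞 K)) (σ : Type) (H : ℕ) :
    Set (σ → 𝓞 K) :=
  {v | ∀ l j, |ω.repr (v l) j| ≤ (H : ℤ)}

/-- The set `S` contains 100% of the integral vectors, counted in boxes. -/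
def AlmostAll {K : Type} [Field K] {J : Type} (ω : Module.Basis J ℤ (𝓞 K)) {σ : Type}
    (S : Set (σ → 𝓞 K)) : Prop :=
  Tendsto (fun H : ℕ => (({v | v ∈ box ω σ H ∧ v ∈ S}.ncard : ℝ) / ((box ω σ H).ncard : ℝ)))
    atTop (𝓝 1)

/-- The forms `F` of degree `d` define an endomorphism, `γ` is a point, and there is one set of primes
of positive density such that, for every starting point `δ` whose forward orbit avoids `γ`, the
orbit avoids `γ` modulo all but finitely many of these primes; so the set of the primes modulo which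
the orbit avoids `γ` has positive density. -/
def Positive {K : Type} [Field K] [NumberField K] {N : ℕ}
    (F : Fin (N + 1) → MvPolynomial (Fin (N + 1)) K) (d : ℕ) (γ : Fin (N + 1) → K) : Prop :=
  IsMor F d ∧ γ ≠ 0 ∧ ∃ P : Set (HeightOneSpectrum (𝓞 K)), PosDens P ∧
    ∀ δ : Fin (N + 1) → K, δ ≠ 0 → (∀ m, ¬ Hits F m δ γ) →
      (P \ SS F δ γ).Finite ∧ PosDens (SS F δ γ)

theorem result (K : Type) [Field K] [NumberField K] (m N d : ℕ) (hN : 1 ≤ N) (hd : 2 ≤ d)
    (F : Fin (N + 1) → MvPolynomial (Fin (N + 1)) (MvPolynomial (Fin m) K))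
    (hF : ∀ i, (F i).IsHomogeneous d) (hgen : GenMor F) :
    Thin {w : Fin m ⊕ Fin (N + 1) → K |
      ¬ Positive (memb F (fun a => w (Sum.inl a))) d (fun i => w (Sum.inr i))} ∧
    ∀ (J : Type) [Fintype J] (ω : Module.Basis J ℤ (𝓞 K)),
      AlmostAll ω {v : Fin m ⊕ Fin (N + 1) → 𝓞 K |
        Positive (memb F (fun a => algebraMap (𝓞 K) K (v (Sum.inl a)))) d
          (fun i => algebraMap (𝓞 K) K (v (Sum.inr i)))} := by
  obtain ⟨N, rfl⟩ : ∃ N', N = N' + 1 := ⟨N - 1, by omega⟩
  have h := thin_main hd F hF hgen
  have h' : Thin {w : Fin m ⊕ Fin (N + 1 + 1) → K |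
      ¬ Positive (memb F (fun a => w (Sum.inl a))) d (fun i => w (Sum.inr i))} := by
    obtain ⟨c, Γ, hc, hΓ, hE⟩ := h
    refine ⟨c, Γ, hc, hΓ, fun w hw => hE w ?_⟩
    intro hgood
    apply hw
    obtain ⟨h1, h2, P, hP, h3⟩ := hgood
    exact ⟨h1, h2, P, hP, fun δ hδ hm => ⟨h3 δ hδ hm, hP.of_diff (h3 δ hδ hm)⟩⟩
  refine ⟨h', ?_⟩
  intro J _ ω
  refine almost_all ω (fun v => Positive (memb F (fun a => algebraMap (𝓞 K) K (v (Sum.inl a)))) d
    (fun i => algebraMap (𝓞 K) K (v (Sum.inr i)))) h' ?_
  intro v hv
  by_contra hcon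
  exact hv hcon

end Pool.Agent.Results.MP_df4dfc_nt.AlmostAllTargets
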