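import Pool.Agent.H423.OA.Main

/-!
# Orbits avoiding a target modulo primes: the one-prime criterion

Let `F` be a morphism of `ℙ^N` over a number field `K` and let `γ` be a `K`-rational point, the
target. The following are equivalent.

1. There is one set `P` of primes of positive density such that, for every starting point `δ` whose
   forward orbit avoids `γ`, the orbit avoids `γ` modulo all but finitely many primes in `P`.
2. For every starting point whose orbit avoids `γ`, the set of primes modulo which the orbit avoids
   `γ` has positive density.
3. For every starting point whose orbit avoids `γ`, this set of primes is infinite.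
4. If `γ` is not periodic, then there is a prime of good reduction modulo which `γ` is not periodic.
5. If `γ` is not periodic, then for some `n` there is an element of the absolute Galois group of `K`
   fixing no point of the fibre of the `n`-th iterate over `γ`.
-/

set_option autoImplicit false

namespace Pool.Agent.Results.MP_df4dfc_nt.OnePrimeCriterion

open MvPolynomial NumberField IsDedekindDomain Pool.Agent.H423.OA

/-- some element of the absolute Galois group of `K` moves every point `x` of projective space over
the algebraic closure with `F^n x = γ`, for some `n` -/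
def GaloisMoves {K : Type} [Field K] [NumberField K] {ι : Type} (F : ι → MvPolynomial ι K)
    (γ : ι → K) : Prop :=
  ∃ (n : ℕ) (σ : AlgebraicClosure K ≃ₐ[K] AlgebraicClosure K),
    ∀ x : ι → AlgebraicClosure K, x ≠ 0 →
      Par ((ev F)^[n] x) (fun i => algebraMap K (AlgebraicClosure K) (γ i)) →
      ¬ Par (fun i => σ (x i)) x

theorem result (K : Type) [Field K] [NumberField K] (N d : ℕ)
    (F : Fin (N + 1) → MvPolynomial (Fin (N + 1)) K) (hd : 1 ≤ d) (hF : IsMor F d)
    (γ : Fin (N + 1) → K) (hγ : γ ≠ 0) :
    [Uniform F γ,
      ∀ δ : Fin (N + 1) → K, δ ≠ 0 → (∀ m, ¬ Hits F m δ γ) → PosDens (SS F δ γ),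
      ∀ δ : Fin (N + 1) → K, δ ≠ 0 → (∀ m, ¬ Hits F m δ γ) → (SS F δ γ).Infinite,
      ¬ Per F γ → ∃ v, GoodRed F v ∧ ¬ PerMod F v γ,
      ¬ Per F γ → GaloisMoves F γ].TFAE := by
  have h := (main hd hF hγ).1
  have e : (¬ Per F γ → ∃ n, (CC F n 0 {γ} ∅).Nonempty) ↔ (¬ Per F γ → GaloisMoves F γ) := by
    apply forall_congr'
    intro _
    unfold GaloisMoves
    apply exists_congr
    intro n
    apply exists_congr
    intro σ
    simp only [CC, Set.mem_ofPred_eq, Set.mem_singleton_iff, exists_eq_left, Set.mem_empty_iff_false,
      false_imp_iff, implies_true, true_imp_iff, add_zero]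
    rfl
  rwa [e] at h

end Pool.Agent.Results.MP_df4dfc_nt.OnePrimeCriterion
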