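import Pool.Agent.H423.OA.Main

/-!
# Preperiodic targets

Both questions have a positive answer for every number field, every morphism of projective space and
every preperiodic target `γ`, with one set of primes of positive density serving all the starting
points at once.
-/

set_option autoImplicit false

namespace Pool.Agent.Results.MP_df4dfc_nt.PreperiodicTargets

open MvPolynomial NumberField IsDedekindDomain Pool.Agent.H423.OA

theorem result (K : Type) [Field K] [NumberField K] (N d : ℕ)
    (F : Fin (N + 1) → MvPolynomial (Fin (N + 1)) K) (hd : 1 ≤ d) (hF : IsMor F d)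
    (γ : Fin (N + 1) → K) (hγ : γ ≠ 0)
    (hper : ∃ k m : ℕ, 1 ≤ m ∧ Par ((ev F)^[k + m] γ) ((ev F)^[k] γ)) :
    ∃ P : Set (HeightOneSpectrum (𝓞 K)), PosDens P ∧
      ∀ δ : Fin (N + 1) → K, δ ≠ 0 → (∀ m, ¬ Hits F m δ γ) →
        (P \ SS F δ γ).Finite ∧ PosDens (SS F δ γ) := by
  obtain ⟨P, hP, h⟩ := (main hd hF hγ).2 hper
  exact ⟨P, hP, fun δ hδ hm => ⟨h δ hδ hm, hP.of_diff (h δ hδ hm)⟩⟩

end Pool.Agent.Results.MP_df4dfc_nt.PreperiodicTargets
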